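import Pool.Agent.H.MP_43e44c_ag.Final

/-!
Abelian CM fields, upper bound without restriction on the rank of the Galois group.
-/

set_option autoImplicit false

open NumberField Finset Module

open scoped IsMulCommutative

namespace Pool.MP43e44c

/-- The number of subgroups with cyclic quotient is at most the order. -/
theorem card_cycquot_le {G : Type*} [CommGroup G] [Finite G] (T : Finset (Subgroup G))
    (hT : ∀ N ∈ T, IsCyclic (G ⧸ N)) : T.card ≤ Nat.card G := by
  classical
  have hex : ∀ N : Subgroup G, ∃ f : G →* ℂˣ, N ∈ T → f.ker = N := by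
    intro N
    by_cases hN : N ∈ T
    · haveI := hT N hN
      have hm : N.index ≠ 0 := Subgroup.index_ne_zero_of_finite
      haveI : NeZero N.index := ⟨hm⟩
      have h3 : Nat.card (G ⧸ N) = Nat.card (rootsOfUnity N.index ℂ) := by
        rw [← Subgroup.index_eq_card, Complex.card_rootsOfUnity]
      let e := mulEquivOfCyclicCardEq h3
      refine ⟨(rootsOfUnity N.index ℂ).subtype.comp (e.toMonoidHom.comp (QuotientGroup.mk' N)),
        fun _ => ?_⟩
      ext g
      rw [MonoidHom.mem_ker, MonoidHom.comp_apply, MonoidHom.comp_apply]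
      constructor
      · intro h
        have h4 : e (QuotientGroup.mk' N g) = 1 := Subtype.ext h
        rw [map_eq_one_iff e e.injective] at h4
        simpa using h4
      · intro h
        have h4 : QuotientGroup.mk' N g = 1 := by simpa using h
        rw [h4]
        simp
    · exact ⟨1, fun h => absurd h hN⟩
  choose f hf using hex
  have hfin : Finite (G →* ℂˣ) := by
    have h1 := CommGroup.card_monoidHom_of_hasEnoughRootsOfUnity G ℂ
    exact Nat.finite_of_card_ne_zero (by rw [h1]; exact Nat.card_pos.ne')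
  haveI : Fintype (G →* ℂˣ) := Fintype.ofFinite _
  rw [← CommGroup.card_monoidHom_of_hasEnoughRootsOfUnity G ℂ, Nat.card_eq_fintype_card,
    ← card_univ]
  refine card_le_card_of_injOn f (fun _ _ => mem_coe.2 (mem_univ _)) ?_
  intro N hN N' hN' h
  rw [← hf N hN, h, hf N' hN']

/-- Third estimate for the terms of the union bound. -/
theorem term_le_four {m k D e : ℕ} (hD : D = m * k) (hm : 0 < m) (hk : 0 < k) (he : 4 ≤ e) :
    maxProb k ^ e ≤ (1 / (D : ℝ) ^ 2) * (4 * m ^ 2 * (1 / √2) ^ e) := by
  obtain ⟨e, rfl⟩ := Nat.exists_eq_add_of_le' he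
  have h1 : (1 / √2 : ℝ) ^ (e + 4) * 4 = (1 / √2) ^ e := by
    rw [pow_add]
    have : (1 / √2 : ℝ) ^ 4 = 1 / 4 := by
      rw [div_pow, one_pow, show (√2 : ℝ) ^ 4 = (√2 ^ 2) ^ 2 by ring, Real.sq_sqrt (by norm_num)]
      norm_num
    rw [this]; ring
  have h2 : maxProb k ^ 2 ≤ m * (1 / D) := by
    refine (maxProb_sq_le k).trans ?_
    have hm' : (0 : ℝ) < m := by exact_mod_cast hm
    have hk' : (0 : ℝ) < k := by exact_mod_cast hk
    rw [hD]; push_cast
    rw [mul_one_div, div_le_div_iff₀ (by linarith) (by positivity), one_mul]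
    nlinarith
  have h3 : maxProb k ^ 4 ≤ (m * (1 / (D : ℝ))) ^ 2 := by
    rw [show (4 : ℕ) = 2 * 2 by norm_num, pow_mul]
    exact pow_le_pow_left₀ (by positivity) h2 2
  calc maxProb k ^ (e + 4) = maxProb k ^ e * maxProb k ^ 4 := pow_add _ _ _
    _ ≤ (1 / √2) ^ e * (m * (1 / (D : ℝ))) ^ 2 := by
        apply mul_le_mul (pow_le_pow_left₀ (maxProb_nonneg k) (maxProb_le' hk) e) h3
          (by have := maxProb_nonneg k; positivity) (by positivity)
    _ = _ := by rw [← h1]; ring

variable {K : Type*} [Field K] [NumberField K] [IsAbelianGalois ℚ K]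

theorem card_fields_le' (S : Finset (IntermediateField ℚ K))
    (hS : ∀ F ∈ S, IsCyclic (F ≃ₐ[ℚ] F)) : S.card ≤ finrank ℚ K := by
  classical
  have h1 := card_cycquot_le (S.image fun F : IntermediateField ℚ K => F.fixingSubgroup) (by
      intro N hN
      obtain ⟨F, hF, rfl⟩ := mem_image.1 hN
      obtain ⟨N, rfl⟩ : ∃ N : Subgroup (K ≃ₐ[ℚ] K), IntermediateField.fixedField N = F :=
        ⟨F.fixingSubgroup, IsGalois.fixedField_fixingSubgroup F⟩
      have hcyc : IsCyclic ((K ≃ₐ[ℚ] K) ⧸ N) :=
        (MulEquiv.isCyclic (IsGalois.normalAutEquivQuotient N)).2 (hS _ hF)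
      rw [IntermediateField.fixingSubgroup_fixedField]
      exact hcyc)
  rw [card_image_of_injective, IsGalois.card_aut_eq_finrank] at h1
  · exact h1
  · intro F F' h
    have h2 : F.fixingSubgroup = F'.fixingSubgroup := h
    rw [← IsGalois.fixedField_fixingSubgroup F, h2, IsGalois.fixedField_fixingSubgroup F']

/-- Imaginary cyclic fields have even degree. -/
theorem even_finrank_of_imag {F : IntermediateField ℚ K}
    (h : ∃ x ∈ F, ∃ φ : K →+* ℂ, (φ x).im ≠ 0) : Even (finrank ℚ F) := by
  obtain ⟨φ⟩ : Nonempty (K →+* ℂ) := inferInstance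
  obtain ⟨c, hc2, -, hc'⟩ := exists_c φ
  obtain ⟨x, hx, ψ, hψ⟩ := h
  have hcN : c ∉ F.fixingSubgroup := by
    intro h2
    rw [IntermediateField.mem_fixingSubgroup_iff] at h2
    apply hψ
    rw [← Complex.conj_eq_iff_im]
    have h3 : ψ (c x) = (ComplexEmbedding.conjugate ψ) x := by rw [hc' ψ]; rfl
    have h4 : c x = x := h2 x hx
    rw [h4] at h3
    exact h3.symm
  have h1 : orderOf (QuotientGroup.mk' F.fixingSubgroup c) = 2 := by
    apply orderOf_eq_prime
    · rw [← map_pow, pow_two, hc2, map_one]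
    · intro h2
      exact hcN ((QuotientGroup.eq_one_iff c).1 h2)
  have h2 : 2 ∣ finrank ℚ F := by
    rw [← index_eq F, Subgroup.index_eq_card, ← h1]
    exact orderOf_dvd_natCard _
  exact even_iff_two_dvd.2 h2

/-- The imaginary cyclic subfields `F` of degree four with `[K : F]` even, and of degree six. -/
def fourSix (K : Type*) [Field K] [NumberField K] : Set (IntermediateField ℚ K) :=
  {F | IsCyclic (F ≃ₐ[ℚ] F) ∧ (∃ x ∈ F, ∃ φ : K →+* ℂ, (φ x).im ≠ 0) ∧
    ((finrank ℚ F = 4 ∧ Even (finrank F K)) ∨ finrank ℚ F = 6)}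

theorem mem_fourSix {F : IntermediateField ℚ K} (hF : F ∈ exceptionalSubfields K)
    (h2 : Nat.totient (finrank ℚ F) = 2) : F ∈ fourSix K := by
  obtain ⟨h3, h4, h5⟩ := hF
  refine ⟨h3, h4, ?_⟩
  have h6 := even_finrank_of_imag h4
  have h7 := le_totient_sq (finrank ℚ F)
  rw [h2] at h7
  generalize hm : finrank ℚ F = m at h2 h5 h6 h7 ⊢
  have h8 : m = 4 ∨ m = 6 := by
    have h9 : m ≤ 8 := by omega
    interval_cases m
    all_goals first
      | (exfalso; revert h2; decide)
      | (exfalso; revert h6; decide)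
      | simp
  rcases h8 with rfl | rfl
  · left
    refine ⟨rfl, ?_⟩
    rw [← Nat.not_odd_iff_even]
    exact fun h => h5 ⟨h, 2, by norm_num⟩
  · right; rfl

theorem ab_sum_le : ∃ C : ℝ, 0 ≤ C ∧ ∀ (K : Type*) [Field K] [NumberField K]
    [IsAbelianGalois ℚ K],
    ∑ᶠ F ∈ exceptionalSubfields K, maxProb (finrank F K) ^ Nat.totient (finrank ℚ F)
      ≤ (evenImagQuadratic K).ncard * (1 / √(finrank ℚ K / 2))
        + (fourSix K).ncard * (6 / finrank ℚ K) + C / finrank ℚ K := by
  classical
  obtain ⟨C, hC0, hC⟩ := exists_sum_bound 2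
  refine ⟨4 * C, by positivity, fun K _ _ _ => ?_⟩
  have := finite_intermediateField (K := K)
  have hfin : (exceptionalSubfields K).Finite := Set.toFinite _
  rw [finsum_mem_eq_finite_toFinset_sum _ hfin]
  have hS : ∀ F ∈ hfin.toFinset, F ∈ exceptionalSubfields K := fun F hF => by simpa using hF
  have hDpos : (0 : ℝ) < finrank ℚ K := by exact_mod_cast finrank_pos
  rw [← sum_filter_add_sum_filter_not hfin.toFinset
    (fun F : IntermediateField ℚ K => finrank ℚ F = 2),
    ← sum_filter_add_sum_filter_not (hfin.toFinset.filter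
      (fun F : IntermediateField ℚ K => ¬ finrank ℚ F = 2))
    (fun F : IntermediateField ℚ K => Nat.totient (finrank ℚ F) = 2), ← add_assoc]
  refine add_le_add (add_le_add ?_ ?_) ?_
  · -- quadratic fields
    have hsub : ((hfin.toFinset.filter fun F : IntermediateField ℚ K => finrank ℚ F = 2) :
        Set (IntermediateField ℚ K)) ⊆ evenImagQuadratic K := by
      intro F hF
      obtain ⟨hF, hF2⟩ := mem_filter.1 (mem_coe.1 hF)
      obtain ⟨-, h1, h2⟩ := hS F hF
      refine ⟨hF2, h1, ?_⟩
      rw [← Nat.not_odd_iff_even]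
      exact fun h => h2 ⟨h, 1, by simpa using hF2⟩
    have hcard : ((hfin.toFinset.filter fun F : IntermediateField ℚ K => finrank ℚ F = 2).card : ℝ)
        ≤ (evenImagQuadratic K).ncard := by
      rw [← Set.ncard_coe_finset]
      exact_mod_cast Set.ncard_le_ncard hsub (Set.toFinite _)
    have hterm : ∀ F ∈ hfin.toFinset.filter fun F : IntermediateField ℚ K => finrank ℚ F = 2,
        maxProb (finrank F K) ^ Nat.totient (finrank ℚ F) ≤ 1 / √(finrank ℚ K / 2) := by
      intro F hF
      have hF2 := (mem_filter.1 hF).2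
      have h3 := Module.finrank_mul_finrank ℚ F K
      have hk : 0 < finrank F K := finrank_pos
      rw [hF2] at h3 ⊢
      rw [Nat.totient_two, pow_one]
      refine (maxProb_le _).trans ?_
      have h4 : ((finrank ℚ K : ℕ) : ℝ) / 2 = finrank F K := by
        rw [← h3]; push_cast; ring
      rw [h4]
      have hk' : (0 : ℝ) < finrank F K := by exact_mod_cast hk
      apply one_div_le_one_div_of_le (Real.sqrt_pos.2 hk')
      exact Real.sqrt_le_sqrt (by linarith)
    refine (sum_le_sum hterm).trans ?_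
    rw [sum_const, nsmul_eq_mul]
    exact mul_le_mul_of_nonneg_right hcard (by positivity)
  · -- quartic and sextic fields
    have hmem : ∀ F ∈ (hfin.toFinset.filter
      (fun F : IntermediateField ℚ K => ¬ finrank ℚ F = 2)).filter
      (fun F : IntermediateField ℚ K => Nat.totient (finrank ℚ F) = 2), F ∈ fourSix K := by
      intro F hF
      obtain ⟨hF, hF2⟩ := mem_filter.1 hF
      exact mem_fourSix (hS F (mem_filter.1 hF).1) hF2
    have hcard : (((hfin.toFinset.filter
      (fun F : IntermediateField ℚ K => ¬ finrank ℚ F = 2)).filter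
      (fun F : IntermediateField ℚ K => Nat.totient (finrank ℚ F) = 2)).card : ℝ)
        ≤ (fourSix K).ncard := by
      rw [← Set.ncard_coe_finset]
      exact_mod_cast Set.ncard_le_ncard (fun F hF => hmem F (mem_coe.1 hF)) (Set.toFinite _)
    have hterm : ∀ F ∈ (hfin.toFinset.filter
      (fun F : IntermediateField ℚ K => ¬ finrank ℚ F = 2)).filter
      (fun F : IntermediateField ℚ K => Nat.totient (finrank ℚ F) = 2),
        maxProb (finrank F K) ^ Nat.totient (finrank ℚ F) ≤ 6 / finrank ℚ K := by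
      intro F hF
      have h1 := hmem F hF
      have h2 := (mem_filter.1 hF).2
      have h3 := term_le_two (Module.finrank_mul_finrank ℚ F K).symm finrank_pos finrank_pos
        h2.ge
      refine h3.trans ?_
      rw [h2, div_pow, one_pow, Real.sq_sqrt (by norm_num)]
      have h4 : (finrank ℚ F : ℝ) ≤ 6 := by
        rcases h1.2.2 with h | h
        · rw [h.1]; norm_num
        · rw [h]; norm_num
      calc 1 / (finrank ℚ K : ℝ) * (2 * (finrank ℚ F : ℝ) * (1 / 2))
          = (finrank ℚ F : ℝ) / finrank ℚ K := by ring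
        _ ≤ _ := by gcongr
    refine (sum_le_sum hterm).trans ?_
    rw [sum_const, nsmul_eq_mul]
    exact mul_le_mul_of_nonneg_right hcard (by positivity)
  · -- the other fields
    set S' := (hfin.toFinset.filter
      (fun F : IntermediateField ℚ K => ¬ finrank ℚ F = 2)).filter
      (fun F : IntermediateField ℚ K => ¬ Nat.totient (finrank ℚ F) = 2) with hS'
    have hterm : ∀ F ∈ S', maxProb (finrank F K) ^ Nat.totient (finrank ℚ F)
        ≤ (1 / (finrank ℚ K : ℝ) ^ 2) *
          (4 * (finrank ℚ F : ℝ) ^ 2 * (1 / √2) ^ Nat.totient (finrank ℚ F)) := by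
      intro F hF
      obtain ⟨hF, hF2⟩ := mem_filter.1 hF
      obtain ⟨hF, hF3⟩ := mem_filter.1 hF
      have h1 := even_finrank_of_imag (hS F hF).2.1
      have h2 : 0 < finrank ℚ F := finrank_pos
      have h3 : 2 < finrank ℚ F := by
        obtain ⟨r, hr⟩ := h1
        omega
      have h4 := Nat.totient_even h3
      have h5 : 0 < Nat.totient (finrank ℚ F) := Nat.totient_pos.2 h2
      have h6 : 4 ≤ Nat.totient (finrank ℚ F) := by
        obtain ⟨r, hr⟩ := h4
        omega
      exact term_le_four (Module.finrank_mul_finrank ℚ F K).symm finrank_pos finrank_pos h6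
    refine (sum_le_sum hterm).trans ?_
    rw [← sum_fiberwise_of_maps_to (t := S'.image fun F : IntermediateField ℚ K => finrank ℚ F)
      (g := fun F : IntermediateField ℚ K => finrank ℚ F)
      (fun F hF => mem_image_of_mem _ hF)]
    have h1 : ∀ m ∈ S'.image (fun F : IntermediateField ℚ K => finrank ℚ F),
        ∑ F ∈ S'.filter (fun F : IntermediateField ℚ K => finrank ℚ F = m),
          (1 / (finrank ℚ K : ℝ) ^ 2) *
          (4 * (finrank ℚ F : ℝ) ^ 2 * (1 / √2) ^ Nat.totient (finrank ℚ F))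
        ≤ (4 / (finrank ℚ K : ℝ)) * ((m : ℝ) ^ 2 * (1 / √2) ^ Nat.totient m) := by
      intro m _
      have h2 : ∑ F ∈ S'.filter (fun F : IntermediateField ℚ K => finrank ℚ F = m),
          (1 / (finrank ℚ K : ℝ) ^ 2) *
          (4 * (finrank ℚ F : ℝ) ^ 2 * (1 / √2) ^ Nat.totient (finrank ℚ F))
          = (S'.filter (fun F : IntermediateField ℚ K => finrank ℚ F = m)).card *
            ((1 / (finrank ℚ K : ℝ) ^ 2) * (4 * (m : ℝ) ^ 2 * (1 / √2) ^ Nat.totient m)) := by
        rw [sum_congr rfl (g := fun _ => (1 / (finrank ℚ K : ℝ) ^ 2) *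
            (4 * (m : ℝ) ^ 2 * (1 / √2) ^ Nat.totient m))
            (fun F hF => by rw [(mem_filter.1 hF).2]), sum_const, nsmul_eq_mul]
      rw [h2]
      have h3 : ((S'.filter (fun F : IntermediateField ℚ K => finrank ℚ F = m)).card : ℝ)
          ≤ finrank ℚ K := by
        have h4 := card_fields_le' (S'.filter (fun F : IntermediateField ℚ K => finrank ℚ F = m))
          (fun F hF => (hS F (mem_filter.1 (mem_filter.1 (mem_filter.1 hF).1).1).1).1)
        exact_mod_cast h4
      calc ((S'.filter (fun F : IntermediateField ℚ K => finrank ℚ F = m)).card : ℝ) *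
            ((1 / (finrank ℚ K : ℝ) ^ 2) * (4 * (m : ℝ) ^ 2 * (1 / √2) ^ Nat.totient m))
          ≤ (finrank ℚ K : ℝ) *
            ((1 / (finrank ℚ K : ℝ) ^ 2) * (4 * (m : ℝ) ^ 2 * (1 / √2) ^ Nat.totient m)) := by
            gcongr
        _ = _ := by field_simp
    refine (sum_le_sum h1).trans ?_
    rw [← mul_sum]
    calc (4 / (finrank ℚ K : ℝ)) * _ ≤ (4 / (finrank ℚ K : ℝ)) * C := by
          gcongr
          exact hC _
      _ = 4 * C / finrank ℚ K := by ring

/-- The upper bound for all abelian number fields. -/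
theorem ab_upper : ∃ C : ℝ, 0 ≤ C ∧ ∀ (K : Type*) [Field K] [NumberField K]
    [IsAbelianGalois ℚ K],
    ({Φ : Finset (K →+* ℂ) | IsCMType Φ ∧ ¬ HodgeRingGeneratedByDivisors Φ}.ncard : ℝ)
      ≤ ((evenImagQuadratic K).ncard * (1 / √(finrank ℚ K / 2))
        + (fourSix K).ncard * (6 / finrank ℚ K) + C / finrank ℚ K) *
        ({Φ : Finset (K →+* ℂ) | IsCMType Φ}.ncard : ℝ) := by
  obtain ⟨C, hC0, hC⟩ := ab_sum_le
  exact ⟨C, hC0, fun K _ _ _ => (main_bound K).trans
    (mul_le_mul_of_nonneg_right (hC K) (Nat.cast_nonneg _))⟩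

end Pool.MP43e44c
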