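import Pool.Agent.H.MP_43e44c_ag.EX.Exotic
import Pool.Agent.H.MP_43e44c_ag.Count2

/-!
The converse of the criterion for the generation of the Hodge ring by divisor classes, for
primitive CM types.
-/

set_option autoImplicit false

open NumberField Finset

namespace Pool.MP43e44c

variable {K : Type*} [Field K] [NumberField K] [IsCMField K] {Φ : Finset (K →+* ℂ)}

/-- Multiplicities of the positive part. -/
theorem posPart_orth {f : (K →+* ℂ) → ℤ} (hΦ : IsCMType Φ)
    (hf : f ∈ lat (GG K) ComplexEmbedding.conjugate Φ) (g : GG K) :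
    ∑ x, ((f x).toNat : ℤ) * sg Φ (g • x) = 0 := by
  obtain ⟨hodd, horth⟩ := hf
  have h1 : ∀ x, f x = ((f x).toNat : ℤ) - ((f (ComplexEmbedding.conjugate x)).toNat : ℤ) := by
    intro x
    rw [hodd x]
    omega
  have h2 : ∑ x, ((f (ComplexEmbedding.conjugate x)).toNat : ℤ) * sg Φ (g • x)
      = - ∑ x, ((f x).toNat : ℤ) * sg Φ (g • x) := by
    rw [← Finset.sum_neg_distrib]
    refine Fintype.sum_equiv
      (Function.Involutive.toPerm (ComplexEmbedding.conjugate : (K →+* ℂ) → (K →+* ℂ)) conj_conj)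
      _ _ fun x => ?_
    change ((f (ComplexEmbedding.conjugate x)).toNat : ℤ) * sg Φ (g • x)
      = -(((f (ComplexEmbedding.conjugate x)).toNat : ℤ) * sg Φ (g • ComplexEmbedding.conjugate x))
    rw [hcgK, sg_conj hΦ]
    ring
  have h3 := horth g
  have h4 : ∑ x, f x * sg Φ (g • x) = ∑ x, ((f x).toNat : ℤ) * sg Φ (g • x)
      - ∑ x, ((f (ComplexEmbedding.conjugate x)).toNat : ℤ) * sg Φ (g • x) := by
    rw [← Finset.sum_sub_distrib]
    refine Finset.sum_congr rfl fun x _ => ?_
    rw [← sub_mul, ← h1]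
  rw [h4, h2] at h3
  linarith

open Classical in
/-- A primitive CM type with a nonzero odd function orthogonal to all translates of its sign
function has exotic Hodge classes. -/
theorem not_generated_of_lat (hΦ : IsCMType Φ)
    (hprim : ∀ φ φ' : K →+* ℂ, Perp Φ φ φ' → φ' = ComplexEmbedding.conjugate φ)
    {f : (K →+* ℂ) → ℤ} (hf : f ∈ lat (GG K) ComplexEmbedding.conjugate Φ) (hf0 : f ≠ 0) :
    ¬ HodgeRingGeneratedByDivisors Φ := by
  let T := Σ x : K →+* ℂ, Fin (f x).toNat
  have hpos : ∀ τ : T, 0 < f τ.1 := by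
    rintro ⟨x, i⟩
    have := i.2
    change 0 < f x
    omega
  have hcard : ∀ (P : (K →+* ℂ) → Prop) [DecidablePred P],
      (univ.filter fun τ : T => P τ.1).card = ∑ x, if P x then (f x).toNat else 0 := by
    intro P _
    rw [Finset.card_filter, Fintype.sum_sigma]
    refine Finset.sum_congr rfl fun x _ => ?_
    by_cases h : P x
    · simp [h]
    · simp [h]
  have hbal : ∀ g : GG K, (univ.filter fun τ : T => g • τ.1 ∈ Φ).card
      = (univ.filter fun τ : T => ¬ g • τ.1 ∈ Φ).card := by
    intro g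
    have h1 := posPart_orth hΦ hf g
    rw [hcard (fun x => g • x ∈ Φ), hcard (fun x => ¬ g • x ∈ Φ)]
    have h2 : ∑ x, ((f x).toNat : ℤ) * sg Φ (g • x)
        = ((∑ x, if g • x ∈ Φ then (f x).toNat else 0 : ℕ) : ℤ)
          - ((∑ x, if ¬ g • x ∈ Φ then (f x).toNat else 0 : ℕ) : ℤ) := by
      push_cast
      rw [← Finset.sum_sub_distrib]
      refine Finset.sum_congr rfl fun x _ => ?_
      by_cases h : g • x ∈ Φ
      · simp [sg_mem h, h]
      · simp [sg_notMem h, h]
    rw [h2] at h1
    omega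
  set p := (univ.filter fun τ : T => (1 : GG K) • τ.1 ∈ Φ).card with hp
  have hT : Fintype.card T = p * 2 := by
    have h1 := hbal 1
    have h2 := Finset.card_filter_add_card_filter_not (s := (univ : Finset T))
      (fun τ : T => (1 : GG K) • τ.1 ∈ Φ)
    rw [Finset.card_univ] at h2
    omega
  have hT' : Fintype.card (Fin p × Fin 2) = Fintype.card T := by
    rw [hT, Fintype.card_prod, Fintype.card_fin, Fintype.card_fin]
  let e : Fin p × Fin 2 ≃ T := Fintype.equivOfCardEq hT'
  have hne : Nonempty T := by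
    obtain ⟨x, hx⟩ := Function.ne_iff.1 hf0
    rw [Pi.zero_apply] at hx
    rcases lt_or_gt_of_ne hx with h | h
    · have h1 : 0 < f (ComplexEmbedding.conjugate x) := by rw [hf.1 x]; omega
      exact ⟨⟨ComplexEmbedding.conjugate x, ⟨0, by omega⟩⟩⟩
    · exact ⟨⟨x, ⟨0, by omega⟩⟩⟩
  intro hgen
  refine not_generated_of_tuple (p := p) hΦ (fun l => (e l).1) ?_ ?_ (hgen (p * 2) p)
  · intro g
    have h1 := hbal g
    have h2 : ∀ (P : T → Prop) [DecidablePred P],
        (univ.filter fun l : Fin p × Fin 2 => P (e l)).card = (univ.filter P).card := by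
      intro P _
      refine Finset.card_bij (fun l _ => e l) ?_ ?_ ?_
      · intro l hl
        simpa using hl
      · intro l _ l' _ h
        exact e.injective h
      · intro τ hτ
        exact ⟨e.symm τ, by simpa using hτ, by simp⟩
    have h3 := h2 (fun τ => g • τ.1 ∈ Φ)
    have h4 := h2 (fun τ => ¬ g • τ.1 ∈ Φ)
    rw [h3, h4]
    exact h1
  · intro σ
    have hp0 : 0 < p := by
      have h1 := Fintype.card_pos (α := T)
      omega
    refine ⟨⟨0, hp0⟩, fun h => ?_⟩
    have h1 := hprim _ _ h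
    have h2 := hpos (e (σ (⟨0, hp0⟩, 1)))
    have h3 := hpos (e (σ (⟨0, hp0⟩, 0)))
    rw [h1, hf.1] at h2
    omega

end Pool.MP43e44c
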