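import Pool.Agent.H.MP_43e44c_ag.Forms2

/-!
Exotic Hodge classes: a balanced tuple of embeddings which cannot be matched into pairs of Hodge
type gives a rational Hodge class which is not generated by divisor classes.
-/

set_option autoImplicit false

open NumberField Finset

namespace Pool.MP43e44c

variable {K : Type*} [Field K] [NumberField K] {Φ : Finset (K →+* ℂ)}

section Form

variable {ι : Type*} [Fintype ι] {k : ℕ}

/-- The complex multilinear form `v ↦ ∏_l x_{f(l), h(l)}(v_l)`. -/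
noncomputable def exMono (Φ : Finset (K →+* ℂ)) (f : ι → Fin k) (h : ι → K →+* ℂ) :
    MultilinearMap ℝ (fun _ : ι => (Fin k → Φ → ℂ)) ℂ :=
  (MultilinearMap.mkPiAlgebra ℝ ι ℂ).compLinearMap
    (fun l => (coord Φ (h l)).comp (LinearMap.proj (f l)))

theorem exMono_apply (f : ι → Fin k) (h : ι → K →+* ℂ) (v : ι → Fin k → Φ → ℂ) :
    exMono Φ f h v = ∏ l, coord Φ (h l) (v l (f l)) := by
  unfold exMono
  rw [MultilinearMap.compLinearMap_apply, MultilinearMap.mkPiAlgebra_apply]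
  rfl

/-- The real trace form. -/
noncomputable def exForm (Φ : Finset (K →+* ℂ)) (f : ι → Fin k) (h : ι → K →+* ℂ) :
    MultilinearMap ℝ (fun _ : ι => (Fin k → Φ → ℂ)) ℝ :=
  Complex.reLm.compMultilinearMap (∑ g : GG K, exMono Φ f (fun l => g • h l))

theorem exForm_re (f : ι → Fin k) (h : ι → K →+* ℂ) (v : ι → Fin k → Φ → ℂ) :
    exForm Φ f h v = (∑ g : GG K, ∏ l, coord Φ (g • h l) (v l (f l))).re := by
  unfold exForm
  rw [LinearMap.compMultilinearMap_apply, MultilinearMap.sum_apply]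
  change (∑ g : GG K, exMono Φ f (fun l => g • h l) v).re = _
  simp only [exMono_apply]

theorem exForm_coe (hΦ : IsCMType Φ) (f : ι → Fin k) (h : ι → K →+* ℂ)
    (v : ι → Fin k → Φ → ℂ) :
    (exForm Φ f h v : ℂ) = ∑ g : GG K, ∏ l, coord Φ (g • h l) (v l (f l)) := by
  rw [exForm_re]
  have h1 : (starRingEnd ℂ) (∑ g : GG K, ∏ l, coord Φ (g • h l) (v l (f l)))
      = ∑ g : GG K, ∏ l, coord Φ (g • h l) (v l (f l)) := by
    rw [map_sum]
    refine Fintype.sum_equiv (Equiv.mulLeft (conjG K)) _ _ fun g => ?_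
    rw [Equiv.coe_mulLeft, map_prod]
    refine Finset.prod_congr rfl fun l _ => ?_
    rw [← coord_conj hΦ, mul_smul, conjG_smul]
  exact Complex.conj_eq_iff_re.1 h1

theorem exForm_rational (hΦ : IsCMType Φ) (f : ι → Fin k) (h : ι → K →+* ℂ)
    {v : ι → Fin k → Φ → ℂ} (hv : ∀ l, v l ∈ cmLattice Φ k) :
    ∃ q : ℚ, exForm Φ f h v = q := by
  choose u hu using hv
  set β : GC K := ∏ l, lft (h l) (u l (f l)) with hβ
  refine ⟨Algebra.trace ℚ (GC K) β, ?_⟩
  have h1 : (exForm Φ f h v : ℂ) = ((Algebra.trace ℚ (GC K) β : ℚ) : ℂ) := by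
    rw [exForm_coe hΦ]
    have h2 := trace_eq_sum_automorphisms (K := ℚ) β
    have h3 : ((Algebra.trace ℚ (GC K) β : ℚ) : ℂ)
        = ((algebraMap ℚ (GC K) (Algebra.trace ℚ (GC K) β) : GC K) : ℂ) := by
      rw [eq_ratCast (algebraMap ℚ (GC K))]
      norm_cast
    rw [h3, h2]
    push_cast
    refine Finset.sum_congr rfl fun g _ => ?_
    rw [hβ, map_prod]
    push_cast
    refine Finset.prod_congr rfl fun l _ => ?_
    rw [coord_lattice hΦ (hu l), smul_apply]
  have h3 : ((exForm Φ f h v : ℝ) : ℂ)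
      = (((Algebra.trace ℚ (GC K) β : ℚ) : ℝ) : ℂ) := by
    rw [h1]; norm_cast
  exact Complex.ofReal_injective h3

open Classical in
theorem exForm_type (hΦ : IsCMType Φ) (f : ι → Fin k) (h : ι → K →+* ℂ)
    (hb : ∀ g : GG K, (univ.filter fun l => g • h l ∈ Φ).card
      = (univ.filter fun l => ¬ g • h l ∈ Φ).card) {z : ℂ} (hz : ‖z‖ = 1)
    (v : ι → Fin k → Φ → ℂ) : exForm Φ f h (fun l => z • v l) = exForm Φ f h v := by
  apply Complex.ofReal_injective
  rw [exForm_coe hΦ, exForm_coe hΦ]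
  refine Finset.sum_congr rfl fun g _ => ?_
  have h1 : ∀ l, coord Φ (g • h l) ((z • v l) (f l))
      = wt Φ (g • h l) z * coord Φ (g • h l) (v l (f l)) := fun l => by
    rw [Pi.smul_apply, coord_smul hΦ]
  rw [Finset.prod_congr rfl fun l _ => h1 l, Finset.prod_mul_distrib]
  have h2 : ∏ l, wt Φ (g • h l) z = 1 := by
    have h3 : ∏ l, wt Φ (g • h l) z = z ^ (univ.filter fun l => g • h l ∈ Φ).card *
        (starRingEnd ℂ z) ^ (univ.filter fun l => ¬ g • h l ∈ Φ).card := by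
      unfold wt
      rw [Finset.prod_ite, Finset.prod_const, Finset.prod_const]
    rw [h3, ← hb g, ← mul_pow, Complex.mul_conj, Complex.normSq_eq_norm_sq, hz]
    simp
  rw [h2, one_mul]

end Form

section Class

variable {p k : ℕ}

/-- The coefficient functional. -/
noncomputable def exCoef (Φ : Finset (K →+* ℂ)) {n : ℕ} (b : Fin n → 𝓞 K) (d : Fin n → K)
    (f : Fin p × Fin 2 → Fin k) (h : Fin p × Fin 2 → K →+* ℂ)
    (F : (Fin p × Fin 2 → Fin k → Φ → ℂ) → ℝ) : ℂ :=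
  ∑ r : Fin p × Fin 2 → Fin n, (∏ l, h l (d (r l))) * (F (fun l => bvec Φ b (f l) (r l)) : ℂ)

theorem exCoef_add {n : ℕ} (b : Fin n → 𝓞 K) (d : Fin n → K)
    (f : Fin p × Fin 2 → Fin k) (h : Fin p × Fin 2 → K →+* ℂ)
    (F F' : (Fin p × Fin 2 → Fin k → Φ → ℂ) → ℝ) :
    exCoef Φ b d f h (F + F') = exCoef Φ b d f h F + exCoef Φ b d f h F' := by
  unfold exCoef
  rw [← Finset.sum_add_distrib]
  refine Finset.sum_congr rfl fun r _ => ?_
  rw [Pi.add_apply]
  push_cast
  ring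

theorem exCoef_smul {n : ℕ} (b : Fin n → 𝓞 K) (d : Fin n → K)
    (f : Fin p × Fin 2 → Fin k) (h : Fin p × Fin 2 → K →+* ℂ) (q : ℚ)
    (F : (Fin p × Fin 2 → Fin k → Φ → ℂ) → ℝ) :
    exCoef Φ b d f h (q • F) = (q : ℂ) * exCoef Φ b d f h F := by
  unfold exCoef
  rw [Finset.mul_sum]
  refine Finset.sum_congr rfl fun r _ => ?_
  rw [Pi.smul_apply, Rat.smul_def]
  push_cast
  ring

theorem exCoef_zero {n : ℕ} (b : Fin n → 𝓞 K) (d : Fin n → K)
    (f : Fin p × Fin 2 → Fin k) (h : Fin p × Fin 2 → K →+* ℂ) :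
    exCoef Φ b d f h 0 = 0 := by
  unfold exCoef
  refine Finset.sum_eq_zero fun r _ => ?_
  rw [Pi.zero_apply, Complex.ofReal_zero, mul_zero]

open Classical in
/-- A nonzero coefficient of a Hodge class of degree two belongs to a pair of Hodge type. -/
theorem perp_of_coef (hΦ : IsCMType Φ) {n : ℕ} {b : Fin n → 𝓞 K} {d : Fin n → K}
    (h2 : ∀ φ ψ : K →+* ℂ, ∑ j, φ (d j) * ψ (b j) = if φ = ψ then 1 else 0)
    (θ : (Fin k → Φ → ℂ) [⋀^Fin 2]→ₗ[ℝ] ℝ) (hθ : IsHodgeClass (cmLattice Φ k) θ)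
    (f : Fin 2 → Fin k) (h : Fin 2 → K →+* ℂ)
    (h0 : coef Φ b d θ.toMultilinearMap f h ≠ 0) : Perp Φ (h 0) (h 1) := by
  intro g
  have h1 := balanced hΦ h2 θ.toMultilinearMap (fun z hz v => hθ.type_pp z hz v) f
      (fun l => g • h l) (coef_smul θ.toMultilinearMap hθ.rational f h g h0)
  have e1 : (univ.filter fun l : Fin 2 => g • h l ∈ Φ).card
      = (if g • h 0 ∈ Φ then 1 else 0) + (if g • h 1 ∈ Φ then 1 else 0) := by
    rw [Finset.card_filter, Fin.sum_univ_two]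
  have e2 : (univ.filter fun l : Fin 2 => ¬ g • h l ∈ Φ).card
      = (if ¬ g • h 0 ∈ Φ then 1 else 0) + (if ¬ g • h 1 ∈ Φ then 1 else 0) := by
    rw [Finset.card_filter, Fin.sum_univ_two]
  rw [e1, e2] at h1
  by_cases ha : g • h 0 ∈ Φ <;> by_cases hb : g • h 1 ∈ Φ <;> simp [ha, hb] at h1 ⊢

open Classical in
/-- The coefficient of a cup product of Hodge classes of degree two vanishes at tuples which
cannot be matched. -/
theorem exCoef_cup (hΦ : IsCMType Φ) {n : ℕ} {b : Fin n → 𝓞 K} {d : Fin n → K}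
    (h2 : ∀ φ ψ : K →+* ℂ, ∑ j, φ (d j) * ψ (b j) = if φ = ψ then 1 else 0)
    (f : Fin p × Fin 2 → Fin k) (h : Fin p × Fin 2 → K →+* ℂ)
    (hno : ∀ σ : Equiv.Perm (Fin p × Fin 2), ∃ i, ¬ Perp Φ (h (σ (i, 0))) (h (σ (i, 1))))
    (θ : Fin p → (Fin k → Φ → ℂ) [⋀^Fin 2]→ₗ[ℝ] ℝ)
    (hθ : ∀ i, IsHodgeClass (cmLattice Φ k) (θ i)) :
    exCoef Φ b d f h (cup θ) = 0 := by
  unfold exCoef cup
  push_cast
  simp only [Finset.mul_sum]
  rw [Finset.sum_comm]
  refine Finset.sum_eq_zero fun σ _ => ?_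
  obtain ⟨i₀, hi₀⟩ := hno σ
  -- the term of `σ` is a product of coefficients of the `θ i`
  have h3 : ∑ r : Fin p × Fin 2 → Fin n, (∏ l, h l (d (r l))) *
      (((Equiv.Perm.sign σ : ℤ) : ℂ) * ∏ i : Fin p,
        ((θ i ![bvec Φ b (f (σ (i, 0))) (r (σ (i, 0))),
          bvec Φ b (f (σ (i, 1))) (r (σ (i, 1)))] : ℝ) : ℂ))
      = ((Equiv.Perm.sign σ : ℤ) : ℂ) * ∏ i : Fin p,
        coef Φ b d (θ i).toMultilinearMap ![f (σ (i, 0)), f (σ (i, 1))]
          ![h (σ (i, 0)), h (σ (i, 1))] := by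
    have h4 : ∀ r : Fin p × Fin 2 → Fin n, (∏ l, h l (d (r l)))
        = ∏ i : Fin p, (h (σ (i, 0)) (d (r (σ (i, 0)))) * h (σ (i, 1)) (d (r (σ (i, 1))))) := by
      intro r
      rw [← Equiv.prod_comp σ, Fintype.prod_prod_type]
      refine Finset.prod_congr rfl fun i _ => ?_
      rw [Fin.prod_univ_two]
    have h5 : ∀ r : Fin p × Fin 2 → Fin n, (∏ l, h l (d (r l))) *
      (((Equiv.Perm.sign σ : ℤ) : ℂ) * ∏ i : Fin p,
        ((θ i ![bvec Φ b (f (σ (i, 0))) (r (σ (i, 0))),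
          bvec Φ b (f (σ (i, 1))) (r (σ (i, 1)))] : ℝ) : ℂ))
        = ((Equiv.Perm.sign σ : ℤ) : ℂ) * ∏ i : Fin p,
          (fun (i : Fin p) (s : Fin 2 → Fin n) =>
            (h (σ (i, 0)) (d (s 0)) * h (σ (i, 1)) (d (s 1))) *
            ((θ i ![bvec Φ b (f (σ (i, 0))) (s 0), bvec Φ b (f (σ (i, 1))) (s 1)] : ℝ) : ℂ)) i
            (fun e => r (σ (i, e))) := by
      intro r
      rw [h4 r, mul_left_comm, ← Finset.prod_mul_distrib]
    rw [Finset.sum_congr rfl fun r _ => h5 r, ← Finset.mul_sum]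
    congr 1
    have h6 : ∀ i : Fin p, coef Φ b d (θ i).toMultilinearMap ![f (σ (i, 0)), f (σ (i, 1))]
          ![h (σ (i, 0)), h (σ (i, 1))]
        = ∑ s : Fin 2 → Fin n, (h (σ (i, 0)) (d (s 0)) * h (σ (i, 1)) (d (s 1))) *
            ((θ i ![bvec Φ b (f (σ (i, 0))) (s 0), bvec Φ b (f (σ (i, 1))) (s 1)] : ℝ) : ℂ) := by
      intro i
      unfold coef
      refine Finset.sum_congr rfl fun s _ => ?_
      rw [Fin.prod_univ_two]
      congr 2
      change ((θ i) _ : ℝ) = _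
      congr 1
      funext e
      fin_cases e <;> rfl
    rw [Finset.prod_congr rfl fun i _ => h6 i, Finset.prod_univ_sum, Fintype.piFinset_univ]
    -- reindex
    let e : (Fin p × Fin 2 → Fin n) ≃ (Fin p → Fin 2 → Fin n) :=
      ((Equiv.arrowCongr σ.symm (Equiv.refl _)).trans (Equiv.curry (Fin p) (Fin 2) (Fin n)))
    refine Fintype.sum_equiv e _ _ fun r => ?_
    refine Finset.prod_congr rfl fun i _ => ?_
    have e3 : ∀ c, e r i c = r (σ (i, c)) := fun c => rfl
    simp only [e3]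
  rw [h3]
  have h7 : ∏ i : Fin p, coef Φ b d (θ i).toMultilinearMap ![f (σ (i, 0)), f (σ (i, 1))]
          ![h (σ (i, 0)), h (σ (i, 1))] = 0 := by
    refine Finset.prod_eq_zero (mem_univ i₀) ?_
    by_contra h8
    have h9 := perp_of_coef hΦ h2 (θ i₀) (hθ i₀) ![f (σ (i₀, 0)), f (σ (i₀, 1))]
      ![h (σ (i₀, 0)), h (σ (i₀, 1))] h8
    exact hi₀ h9
  rw [h7, mul_zero]

open Classical in
/-- A balanced tuple of embeddings which cannot be matched into pairs of Hodge type. -/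
theorem not_generated_of_tuple (hΦ : IsCMType Φ) (t : Fin p × Fin 2 → K →+* ℂ)
    (hb : ∀ g : GG K, (univ.filter fun l => g • t l ∈ Φ).card
      = (univ.filter fun l => ¬ g • t l ∈ Φ).card)
    (hno : ∀ σ : Equiv.Perm (Fin p × Fin 2), ∃ i, ¬ Perp Φ (t (σ (i, 0))) (t (σ (i, 1)))) :
    ¬ GeneratedByDivisors (cmLattice Φ (p * 2)) p := by
  intro hgen
  obtain ⟨n, b, d, -, h2⟩ := exists_dual K
  let f : Fin p × Fin 2 → Fin (p * 2) := finProdFinEquiv
  have hf : Function.Injective f := finProdFinEquiv.injective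
  let m := exForm Φ f t
  let ω : (Fin (p * 2) → Φ → ℂ) [⋀^Fin p × Fin 2]→ₗ[ℝ] ℝ := MultilinearMap.alternatization m
  have hω : ∀ v, ω v = ∑ σ : Equiv.Perm (Fin p × Fin 2),
      ((Equiv.Perm.sign σ : ℤ) : ℝ) * m (fun l => v (σ l)) := by
    intro v
    change MultilinearMap.alternatization m v = _
    rw [MultilinearMap.alternatization_apply]
    refine Finset.sum_congr rfl fun σ _ => ?_
    rw [Units.smul_def, zsmul_eq_mul]
    rfl
  have hhodge : IsHodgeClass (cmLattice Φ (p * 2)) ω := by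
    constructor
    · intro v hv
      have h3 : ∀ σ : Equiv.Perm (Fin p × Fin 2), ∃ q : ℚ, m (fun l => v (σ l)) = q :=
        fun σ => exForm_rational hΦ f t fun l => hv (σ l)
      choose q hq using h3
      refine ⟨∑ σ : Equiv.Perm (Fin p × Fin 2), ((Equiv.Perm.sign σ : ℤ) : ℚ) * q σ, ?_⟩
      rw [hω]
      push_cast
      exact Finset.sum_congr rfl fun σ _ => by rw [hq]
    · intro z hz v
      rw [hω, hω]
      refine Finset.sum_congr rfl fun σ _ => ?_
      rw [exForm_type hΦ f t hb hz (fun l => v (σ l))]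
  have hspan := hgen ω hhodge
  -- the coefficient functional vanishes on cup products
  have hzero : ∀ F ∈ Submodule.span ℚ {f | ∃ θ : Fin p → (Fin (p * 2) → Φ → ℂ) [⋀^Fin 2]→ₗ[ℝ] ℝ,
      (∀ i, IsHodgeClass (cmLattice Φ (p * 2)) (θ i)) ∧ f = cup θ},
      exCoef Φ b d f t F = 0 := by
    intro F hF
    induction hF using Submodule.span_induction with
    | mem F hF =>
      obtain ⟨θ, hθ, rfl⟩ := hF
      exact exCoef_cup hΦ h2 f t hno θ hθ
    | zero => exact exCoef_zero b d f t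
    | add F F' _ _ h3 h4 => rw [exCoef_add, h3, h4, add_zero]
    | smul q F _ h3 => rw [exCoef_smul, h3, mul_zero]
  have h0 := hzero _ hspan
  -- but not on `ω`
  have h3 : ∀ r : Fin p × Fin 2 → Fin n, ((ω (fun l => bvec Φ b (f l) (r l)) : ℝ) : ℂ)
      = ∑ g : GG K, ∏ l, (g • t l) (b (r l)) := by
    intro r
    rw [hω, Finset.sum_eq_single 1]
    · rw [Equiv.Perm.sign_one]
      push_cast
      rw [one_mul, exForm_coe hΦ]
      refine Finset.sum_congr rfl fun g _ => Finset.prod_congr rfl fun l _ => ?_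
      change coord Φ (g • t l) (bvec Φ b (f l) (r l) (f l)) = _
      rw [bvec, Pi.single_eq_same, coord_emb hΦ]
    · intro σ _ hσ
      obtain ⟨l, hl⟩ : ∃ l, σ l ≠ l := by
        by_contra hcon
        push Not at hcon
        exact hσ (Equiv.ext hcon)
      have h4 : m (fun l => bvec Φ b (f (σ l)) (r (σ l))) = 0 := by
        apply Complex.ofReal_injective
        rw [exForm_coe hΦ, Complex.ofReal_zero]
        refine Finset.sum_eq_zero fun g _ => Finset.prod_eq_zero (mem_univ l) ?_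
        rw [bvec, Pi.single_eq_of_ne fun h5 => hl (hf h5.symm), map_zero]
      rw [h4, mul_zero]
    · intro h; exact absurd (mem_univ _) h
  have h4 : exCoef Φ b d f t ω = ∑ g : GG K, if ∀ l, t l = g • t l then (1 : ℂ) else 0 := by
    unfold exCoef
    simp only [h3, Finset.mul_sum]
    rw [Finset.sum_comm]
    refine Finset.sum_congr rfl fun g _ => ?_
    have h5 : ∀ r : Fin p × Fin 2 → Fin n, (∏ l, t l (d (r l))) * ∏ l, (g • t l) (b (r l))
        = ∏ l, (t l (d (r l)) * (g • t l) (b (r l))) := fun r => (Finset.prod_mul_distrib).symm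
    rw [Finset.sum_congr rfl fun r _ => h5 r]
    have h6 : ∑ r : Fin p × Fin 2 → Fin n, ∏ l, (t l (d (r l)) * (g • t l) (b (r l)))
        = ∏ l, ∑ j : Fin n, t l (d j) * (g • t l) (b j) := by
      rw [Finset.prod_univ_sum, Fintype.piFinset_univ]
    rw [h6, Finset.prod_congr rfl fun l _ => h2 (t l) (g • t l)]
    by_cases hh : ∀ l, t l = g • t l
    · rw [if_pos hh]
      exact Finset.prod_eq_one fun l _ => if_pos (hh l)
    · rw [if_neg hh]
      push Not at hh
      obtain ⟨l, hl⟩ := hh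
      exact Finset.prod_eq_zero (mem_univ l) (if_neg hl)
  rw [h4, Finset.sum_boole] at h0
  have h5 : (univ.filter fun g : GG K => ∀ l, t l = g • t l).card = 0 := by exact_mod_cast h0
  rw [Finset.card_eq_zero, Finset.filter_eq_empty_iff] at h5
  exact h5 (mem_univ 1) fun l => (one_smul _ _).symm

end Class

end Pool.MP43e44c
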